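import Pool.Agent.Helper67.DF.Stmts

/-!
Project DF, row MW: moments of `|⟨e, x⟩|^(1/5)`.
-/

set_option autoImplicit false

open Finset MeasureTheory Set

namespace Pool.Agent.Helper58.DF

open Pool.Agent.Helper67.BT (E PG Sp)
open Pool.Agent.Helper67.DF

/-! ### one variable -/

theorem integrable_of_even {f : ℝ → ℝ} (he : ∀ t, f (-t) = f t) (hf : IntegrableOn f (Ioi 0)) :
    Integrable f := by
  have int_Iic : IntegrableOn f (Iic 0) := by
    rw [← Measure.map_neg_eq_self (volume : Measure ℝ)]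
    let m : MeasurableEmbedding fun x : ℝ => -x := (Homeomorph.neg ℝ).measurableEmbedding
    rw [m.integrableOn_map_iff]
    have h1 : (f ∘ fun x : ℝ => -x) = f := by
      funext t
      exact he t
    rw [h1]
    simp_rw [neg_preimage, neg_Iic, neg_zero]
    exact Iff.mpr integrableOn_Ici_iff_integrableOn_Ioi hf
  have h2 := int_Iic.union hf
  rwa [Iic_union_Ioi, integrableOn_univ] at h2

theorem lin {m : ℕ} (c b : Fin m → ℝ) (h : ℝ → ℝ)
    (hi : ∀ j, IntegrableOn (fun t => t ^ (b j) * h t) (Ioi 0)) (f : ℝ → ℝ)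
    (hf : ∀ t, 0 < t → f t = ∑ j, c j * t ^ (b j)) :
    IntegrableOn (fun t => f t * h t) (Ioi 0) ∧
      ∫ t in Ioi (0 : ℝ), f t * h t = ∑ j, c j * ∫ t in Ioi (0 : ℝ), t ^ (b j) * h t := by
  have h1 : ∀ t ∈ Ioi (0 : ℝ), f t * h t = ∑ j, c j * (t ^ (b j) * h t) := by
    intro t ht
    rw [hf t ht, Finset.sum_mul]
    refine Finset.sum_congr rfl fun j _ => ?_
    ring
  have h2 : ∀ j, IntegrableOn (fun t => c j * (t ^ (b j) * h t)) (Ioi 0) :=
    fun j => (hi j).const_mul (c j)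
  have h3 : IntegrableOn (fun t => ∑ j, c j * (t ^ (b j) * h t)) (Ioi 0) :=
    integrable_finsetSum _ fun j _ => h2 j
  refine ⟨h3.congr_fun (fun t ht => (h1 t ht).symm) measurableSet_Ioi, ?_⟩
  rw [setIntegral_congr_fun measurableSet_Ioi h1, integral_finsetSum _ fun j _ => h2 j]
  refine Finset.sum_congr rfl fun j _ => ?_
  rw [integral_const_mul]

theorem gamma_int {b : ℝ} (hb : -1 < b) :
    IntegrableOn (fun t : ℝ => t ^ b * Real.exp (-t)) (Ioi 0) ∧
      ∫ t in Ioi (0 : ℝ), t ^ b * Real.exp (-t) = Real.Gamma (1 + b) := by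
  have h0 : 0 < 1 + b := by linarith
  have h1 := Real.GammaIntegral_convergent h0
  have h2 := Real.Gamma_eq_integral h0
  have h3 : (1 + b - 1) = b := by ring
  rw [h3] at h1 h2
  have h4 : (fun t : ℝ => t ^ b * Real.exp (-t)) = fun t => Real.exp (-t) * t ^ b := by
    funext t
    ring
  rw [h4, h2]
  exact ⟨h1, rfl⟩

theorem low_pow {g : ℝ → ℝ} (hgm : Measurable g) (hpos : ∀ t, 0 < g t) (hle : ∀ t, g t ≤ g 0)
    (hint : IntegrableOn g (Ioi 0)) {b : ℝ} (hb : -1 < b) (hb0 : b ≤ 0) :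
    IntegrableOn (fun t => t ^ b * g t) (Ioi 0) := by
  rw [← Ioc_union_Ioi_eq_Ioi (@zero_le_one ℝ _ _ _ _), integrableOn_union]
  have hmeas : Measurable fun t : ℝ => t ^ b * g t := (measurable_id.pow_const b).mul hgm
  constructor
  · have h1 : IntegrableOn (fun t : ℝ => g 0 * t ^ b) (Ioc 0 1) := by
      have h2 := (intervalIntegral.intervalIntegrable_rpow' (a := 0) (b := 1) hb)
      rw [intervalIntegrable_iff_integrableOn_Ioc_of_le zero_le_one] at h2
      exact h2.const_mul (g 0)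
    refine Integrable.mono' h1 hmeas.aestronglyMeasurable ?_
    refine (ae_restrict_mem measurableSet_Ioc).mono fun t ht => ?_
    have h3 : 0 ≤ t ^ b := Real.rpow_nonneg ht.1.le b
    rw [Real.norm_eq_abs, abs_of_nonneg (mul_nonneg h3 (hpos t).le), mul_comm]
    exact mul_le_mul_of_nonneg_right (hle t) h3
  · have h1 : IntegrableOn g (Ioi 1) := hint.mono_set (Ioi_subset_Ioi zero_le_one)
    refine Integrable.mono' h1 hmeas.aestronglyMeasurable ?_
    refine (ae_restrict_mem measurableSet_Ioi).mono fun t ht => ?_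
    have ht1 : (1 : ℝ) < t := ht
    have h3 : 0 ≤ t ^ b := Real.rpow_nonneg (by linarith) b
    have h4 : t ^ b ≤ 1 := Real.rpow_le_one_of_one_le_of_nonpos ht1.le hb0
    rw [Real.norm_eq_abs, abs_of_nonneg (mul_nonneg h3 (hpos t).le)]
    calc t ^ b * g t ≤ 1 * g t := mul_le_mul_of_nonneg_right h4 (hpos t).le
      _ = g t := one_mul _

/-! ### convex functions -/

theorem cx1 : ConvexOn ℝ (Ioi 0) fun u : ℝ => u⁻¹ := by
  have h := convexOn_zpow (𝕜 := ℝ) (-1)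
  refine h.congr fun x _ => ?_
  exact zpow_neg_one x

theorem cx2 : ConvexOn ℝ (Ioi 0) fun u : ℝ => u⁻¹ ^ 2 :=
  cx1.pow (fun _ hx => inv_nonneg.2 (le_of_lt hx)) 2

theorem cx3 : ConvexOn ℝ (Ioi 0) fun u : ℝ => (u - 2 + u⁻¹) ^ 2 := by
  have h1 : ConvexOn ℝ (Ioi (0 : ℝ)) fun u : ℝ => u - 2 + u⁻¹ := by
    have h2 := ((convexOn_id (𝕜 := ℝ) (convex_Ioi (0 : ℝ))).add_const (-2)).add cx1
    refine h2.congr fun x _ => ?_
    show x + -2 + x⁻¹ = x - 2 + x⁻¹
    ring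
  refine h1.pow ?_ 2
  intro x hx
  have hx' : (0 : ℝ) < x := hx
  have h3 : x - 2 + x⁻¹ = (x - 1) ^ 2 / x := by
    field_simp
    ring
  rw [h3]
  positivity

theorem cx4 : ConvexOn ℝ (Ioi 0) fun u : ℝ => (u - 1) ^ 4 := by
  have h0 : Even 4 := ⟨2, rfl⟩
  have h1 := (h0.convexOn_pow (𝕜 := ℝ)).translate_right (-1)
  refine (h1.subset (fun x _ => mem_univ _) (convex_Ioi 0)).congr fun x _ => ?_
  show (-1 + x) ^ 4 = (x - 1) ^ 4
  ring

/-! ### powers -/

theorem rp (t : ℝ) (ht : 0 < t) (j : ℕ) : (t ^ (1 / 5 : ℝ)) ^ j = t ^ ((j : ℝ) / 5) := by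
  rw [← Real.rpow_natCast, ← Real.rpow_mul ht.le]
  congr 1
  ring

theorem rpi (t : ℝ) (ht : 0 < t) (j : ℕ) : ((t ^ (1 / 5 : ℝ)) ^ j)⁻¹ = t ^ (-(j : ℝ) / 5) := by
  rw [rp t ht, ← Real.rpow_neg ht.le]
  congr 1
  ring

theorem ex1 {M t : ℝ} (_hM : 0 < M) (ht : 0 < t) :
    (t ^ (1 / 5 : ℝ) / M)⁻¹ = ∑ j : Fin 1, (![M] : Fin 1 → ℝ) j *
      t ^ ((![-1 / 5] : Fin 1 → ℝ) j) := by
  have h1 := rpi t ht 1
  simp only [pow_one, Nat.cast_one] at h1
  simp only [Fin.sum_univ_succ, Fin.sum_univ_zero, Matrix.cons_val_zero]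
  rw [← h1, inv_div]
  have h2 : t ^ (1 / 5 : ℝ) ≠ 0 := (Real.rpow_pos_of_pos ht _).ne'
  field_simp
  ring

theorem ex2 {M t : ℝ} (_hM : 0 < M) (ht : 0 < t) :
    (t ^ (1 / 5 : ℝ) / M)⁻¹ ^ 2 = ∑ j : Fin 1, (![M ^ 2] : Fin 1 → ℝ) j *
      t ^ ((![-2 / 5] : Fin 1 → ℝ) j) := by
  have h1 := rpi t ht 2
  simp only [Nat.cast_ofNat] at h1
  simp only [Fin.sum_univ_succ, Fin.sum_univ_zero, Matrix.cons_val_zero]
  rw [← h1, inv_div]
  have h2 : t ^ (1 / 5 : ℝ) ≠ 0 := (Real.rpow_pos_of_pos ht _).ne'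
  field_simp
  ring

theorem ex3 {M t : ℝ} (hM : 0 < M) (ht : 0 < t) :
    (t ^ (1 / 5 : ℝ) / M - 2 + (t ^ (1 / 5 : ℝ) / M)⁻¹) ^ 2 =
      ∑ j : Fin 5, (![1 / M ^ 2, -4 / M, 6, -4 * M, M ^ 2] : Fin 5 → ℝ) j *
      t ^ ((![2 / 5, 1 / 5, 0, -1 / 5, -2 / 5] : Fin 5 → ℝ) j) := by
  have h1 := rpi t ht 1
  have h2 := rpi t ht 2
  have h3 := rp t ht 2
  simp only [pow_one, Nat.cast_one, Nat.cast_ofNat] at h1 h2 h3
  simp only [Fin.sum_univ_five, Matrix.cons_val]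
  rw [← h1, ← h2, ← h3, Real.rpow_zero, inv_div]
  have h4 : t ^ (1 / 5 : ℝ) ≠ 0 := (Real.rpow_pos_of_pos ht _).ne'
  field_simp
  ring

theorem ex4 {M t : ℝ} (hM : 0 < M) (ht : 0 < t) :
    (t ^ (1 / 5 : ℝ) / M - 1) ^ 4 =
      ∑ j : Fin 5, (![1 / M ^ 4, -4 / M ^ 3, 6 / M ^ 2, -4 / M, 1] : Fin 5 → ℝ) j *
      t ^ ((![4 / 5, 3 / 5, 2 / 5, 1 / 5, 0] : Fin 5 → ℝ) j) := by
  have h1 := rp t ht 4
  have h2 := rp t ht 3
  have h3 := rp t ht 2
  simp only [Nat.cast_ofNat] at h1 h2 h3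
  simp only [Fin.sum_univ_five, Matrix.cons_val]
  rw [← h1, ← h2, ← h3, Real.rpow_zero]
  have h4 : t ^ (1 / 5 : ℝ) ≠ 0 := (Real.rpow_pos_of_pos ht _).ne'
  field_simp
  ring

/-! ### the theorem -/

theorem st_MW (hIG : ST_IG) (hMAR : ST_MAR) (hCOL : ST_COL) (hGAM : ST_GAM) : ST_MW := by
  intro n k a c K α U ψ w e hSp hPF he q M hq hM
  obtain ⟨g, hgm, hpos, hev, hlc, hint, hF⟩ := hMAR n k a c K α U ψ w e hSp hPF he
  obtain ⟨δ, hδ, hIG1⟩ := hIG n k a hSp c hPF.c0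
  obtain ⟨-, -, -, -, hPGint, hZ⟩ := hIG1 K α U ψ w hPF
  have hZ0 : (J a U fun _ => 1) ≠ 0 := hZ.ne'
  have hgle : ∀ t, g t ≤ g 0 := by
    intro t
    have h1 := hlc.2 (mem_univ t) (mem_univ (-t)) (by norm_num : (0 : ℝ) ≤ 1 / 2)
      (by norm_num : (0 : ℝ) ≤ 1 / 2) (by norm_num)
    simp only [smul_eq_mul, hev] at h1
    have h2 : (1 / 2 : ℝ) * t + 1 / 2 * -t = 0 := by ring
    rw [h2] at h1
    have h3 : Real.log (g t) ≤ Real.log (g 0) := by linarith
    exact (Real.log_le_log_iff (hpos t) (hpos 0)).1 h3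
  have hgI : IntegrableOn g (Ioi 0) := hint.integrableOn
  have habs : ∀ b : ℝ, Measurable fun t : ℝ => |t| ^ b := fun b =>
    (measurable_norm (α := ℝ)).pow_const b
  have hpg : ∀ b : ℝ, 0 < b → b ≤ 1 → IntegrableOn (fun t => t ^ b * g t) (Ioi 0) := by
    intro b hb0 hb1
    have hPG : PG fun x : E k => |inner ℝ e x| ^ b := by
      refine ⟨?_, 1 + ‖e‖, 1, by positivity, ?_⟩
      · exact (continuous_abs.comp (continuous_const.inner continuous_id)).rpow_const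
          fun x => Or.inr hb0.le
      · intro x
        have h1 : |inner ℝ e x| ≤ ‖e‖ * ‖x‖ := abs_real_inner_le_norm e x
        have h0 : 0 ≤ |inner ℝ e x| := abs_nonneg _
        rw [abs_of_nonneg (Real.rpow_nonneg h0 b), pow_one]
        have h2 : |inner ℝ e x| ^ b ≤ 1 + |inner ℝ e x| := by
          rcases le_total (|inner ℝ e x|) 1 with h | h
          · have := Real.rpow_le_one h0 h hb0.le
            linarith
          · have := Real.rpow_le_rpow_of_exponent_le h hb1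
            rw [Real.rpow_one] at this
            linarith
        nlinarith [norm_nonneg e, norm_nonneg x]
    have h1 := hPGint _ hPG
    have h2 := ((hF (fun t => |t| ^ b) (habs b)).1).2 h1
    refine (h2.integrableOn (s := Ioi 0)).congr_fun (fun t ht => ?_) measurableSet_Ioi
    have ht1 : (0 : ℝ) < t := ht
    show |t| ^ b * g t = t ^ b * g t
    rw [abs_of_pos ht1]
  have hpw : ∀ b : ℝ, -1 < b → b ≤ 1 → IntegrableOn (fun t => t ^ b * g t) (Ioi 0) := by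
    intro b hb hb1
    rcases le_or_gt b 0 with h | h
    · exact low_pow hgm hpos hgle hgI hb h
    · exact hpg b h hb1
  obtain ⟨G, hGdef⟩ : ∃ G : ℝ → ℝ, G = fun t => 2 / (J a U fun _ => 1) * g t := ⟨_, rfl⟩
  have hcpos : 0 < 2 / (J a U fun _ => 1) := div_pos two_pos hZ
  have hGp : ∀ b : ℝ, -1 < b → b ≤ 1 → IntegrableOn (fun t => t ^ b * G t) (Ioi 0) := by
    intro b hb hb1
    refine IntegrableOn.congr_fun ((hpw b hb hb1).const_mul (2 / (J a U fun _ => 1)))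
      (fun t _ => ?_) measurableSet_Ioi
    rw [hGdef]
    ring
  have htr : ∀ f : ℝ → ℝ, Measurable f → Av a U (fun x => f (q x)) =
      ∫ t in Ioi (0 : ℝ), f (t ^ (1 / 5 : ℝ)) * G t := by
    intro f hf
    have h1 := (hF (fun t => f (|t| ^ (1 / 5 : ℝ))) (hf.comp (habs _))).2
    have h2 : ∫ t, f (|t| ^ (1 / 5 : ℝ)) * g t =
        2 * ∫ t in Ioi (0 : ℝ), f (t ^ (1 / 5 : ℝ)) * g t := by
      have h3 := integral_comp_abs (f := fun t => f (t ^ (1 / 5 : ℝ)) * g t)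
      rw [← h3]
      refine integral_congr_ae (Filter.Eventually.of_forall fun t => ?_)
      show f (|t| ^ (1 / 5 : ℝ)) * g t = f (|t| ^ (1 / 5 : ℝ)) * g |t|
      rcases abs_cases t with ⟨h, -⟩ | ⟨h, -⟩
      · rw [h]
      · rw [h, hev]
    have h4 : ∫ t in Ioi (0 : ℝ), f (t ^ (1 / 5 : ℝ)) * G t =
        2 / (J a U fun _ => 1) * ∫ t in Ioi (0 : ℝ), f (t ^ (1 / 5 : ℝ)) * g t := by
      rw [← integral_const_mul, hGdef]
      refine integral_congr_ae (Filter.Eventually.of_forall fun t => ?_)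
      show f (t ^ (1 / 5 : ℝ)) * (2 / (J a U fun _ => 1) * g t) =
        2 / (J a U fun _ => 1) * (f (t ^ (1 / 5 : ℝ)) * g t)
      ring
    rw [h4, hq]
    unfold Av
    show J a U (fun x => f (|inner ℝ e x| ^ (1 / 5 : ℝ))) / (J a U fun _ => 1) = _
    rw [h1, h2]
    ring
  have hG1 : ∫ t in Ioi (0 : ℝ), G t = 1 := by
    have h1 := htr (fun _ => 1) measurable_const
    simp only [one_mul] at h1
    rw [← h1]
    unfold Av
    exact div_self hZ0
  have hMG : M = ∫ t in Ioi (0 : ℝ), t ^ (1 / 5 : ℝ) * G t := by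
    rw [hM]
    exact htr (fun u => u) measurable_id
  have hGpos : ∀ t, 0 < G t := by
    intro t
    rw [hGdef]
    exact mul_pos hcpos (hpos t)
  have hGI : IntegrableOn G (Ioi 0) := by
    rw [hGdef]
    exact hgI.const_mul _
  have hMpos : 0 < M := by
    rw [hMG]
    have hmem : ∀ t ∈ Ioi (0 : ℝ), 0 < t ^ (1 / 5 : ℝ) * G t := fun t ht =>
      mul_pos (Real.rpow_pos_of_pos ht _) (hGpos t)
    rw [setIntegral_pos_iff_support_of_nonneg_ae
      ((ae_restrict_mem measurableSet_Ioi).mono fun t ht => (hmem t ht).le)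
      (hGp (1 / 5) (by norm_num) (by norm_num))]
    have h1 : Ioi (0 : ℝ) ⊆ (Function.support fun t => t ^ (1 / 5 : ℝ) * G t) ∩ Ioi 0 :=
      fun t ht => ⟨(hmem t ht).ne', ht⟩
    exact lt_of_lt_of_le (by rw [Real.volume_Ioi]; exact ENNReal.zero_lt_top) (measure_mono h1)
  have hGm : Measurable G := by
    rw [hGdef]
    exact hgm.const_mul _
  have hGlc : ConcaveOn ℝ (Ioi 0) fun t => Real.log (G t) := by
    have h1 := (hlc.subset (subset_univ (Ioi (0 : ℝ))) (convex_Ioi 0)).add_const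
      (Real.log (2 / (J a U fun _ => 1)))
    refine h1.congr fun t _ => ?_
    show Real.log (g t) + Real.log (2 / (J a U fun _ => 1)) = Real.log (G t)
    rw [hGdef]
    show _ = Real.log (2 / (J a U fun _ => 1) * g t)
    rw [Real.log_mul hcpos.ne' (hpos t).ne', add_comm]
  have hΓ : 0 < Real.Gamma (1 + 1 / 5) := Real.Gamma_pos_of_pos (by norm_num)
  have main : ∀ (m : ℕ) (cc : ℝ → Fin m → ℝ) (b : Fin m → ℝ) (φ : ℝ → ℝ), Measurable φ →
      ConvexOn ℝ (Ioi 0) φ → (∀ j, -1 < b j ∧ b j ≤ 1) →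
      (∀ M t : ℝ, 0 < M → 0 < t → φ (t ^ (1 / 5 : ℝ) / M) = ∑ j, cc M j * t ^ (b j)) →
      Av a U (fun x => φ (q x / M)) ≤
        ∑ j, cc (Real.Gamma (1 + 1 / 5)) j * Real.Gamma (1 + b j) := by
    intro m cc b φ hφm hφ hb hex
    have h1 := lin (cc M) b G (fun j => hGp (b j) (hb j).1 (hb j).2)
      (fun t => φ (t ^ (1 / 5 : ℝ) / M)) fun t ht => hex M t hMpos ht
    have h2 := lin (cc (Real.Gamma (1 + 1 / 5))) b (fun t => Real.exp (-t))
      (fun j => (gamma_int (hb j).1).1)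
      (fun t => φ (t ^ (1 / 5 : ℝ) / Real.Gamma (1 + 1 / 5))) fun t ht => hex _ t hΓ ht
    have h3 := hCOL G φ (1 / 5) M (by norm_num) hGm (fun t _ => hGpos t) hGlc hGI hG1
      (hGp (1 / 5) (by norm_num) (by norm_num)) hMG hφ h1.1 h2.1
    have h4 := htr (fun u => φ (u / M)) (hφm.comp (measurable_id.div_const M))
    rw [h4]
    refine h3.trans (le_of_eq ?_)
    rw [h2.2]
    refine Finset.sum_congr rfl fun j _ => ?_
    rw [(gamma_int (hb j).1).2]
  have e65 : (1 + 1 / 5 : ℝ) = 6 / 5 := by norm_num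
  obtain ⟨g1, g2, g3, g4⟩ := hGAM
  have hG65 : Real.Gamma (6 / 5) ≠ 0 := (Real.Gamma_pos_of_pos (by norm_num)).ne'
  refine ⟨hMpos, ?_, ?_, ?_, ?_, ?_, ?_⟩
  · have h1 : Measurable fun t : ℝ => (|t| ^ (1 / 5 : ℝ))⁻¹ := (habs _).inv
    rw [hq]
    refine ((hF _ h1).1).1 (integrable_of_even (fun t => ?_) ?_)
    · rw [abs_neg, hev]
    · refine (hpw (-1 / 5) (by norm_num) (by norm_num)).congr_fun (fun t ht => ?_)
        measurableSet_Ioi
      have ht1 : (0 : ℝ) < t := ht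
      have h2 := rpi t ht1 1
      simp only [pow_one, Nat.cast_one] at h2
      show t ^ (-1 / 5 : ℝ) * g t = (|t| ^ (1 / 5 : ℝ))⁻¹ * g t
      rw [abs_of_pos ht1, h2]
  · have h1 : Measurable fun t : ℝ => (|t| ^ (1 / 5 : ℝ))⁻¹ ^ 2 := (habs _).inv.pow_const 2
    rw [hq]
    refine ((hF _ h1).1).1 (integrable_of_even (fun t => ?_) ?_)
    · rw [abs_neg, hev]
    · refine (hpw (-2 / 5) (by norm_num) (by norm_num)).congr_fun (fun t ht => ?_)
        measurableSet_Ioi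
      have ht1 : (0 : ℝ) < t := ht
      have h2 := rpi t ht1 2
      simp only [Nat.cast_ofNat] at h2
      show t ^ (-2 / 5 : ℝ) * g t = (|t| ^ (1 / 5 : ℝ))⁻¹ ^ 2 * g t
      rw [abs_of_pos ht1, ← h2, inv_pow]
  · have h1 := main 1 (fun M => ![M]) ![-1 / 5] (fun u => u⁻¹) measurable_inv cx1
      (by intro j; fin_cases j; norm_num) fun M t hM ht => ex1 hM ht
    simp only [inv_div, Fin.sum_univ_succ, Fin.sum_univ_zero, Matrix.cons_val_zero, e65,
      add_zero] at h1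
    refine h1.trans (le_trans (le_of_eq ?_) g1)
    rw [mul_comm]
    norm_num
  · have h1 := main 1 (fun M => ![M ^ 2]) ![-2 / 5] (fun u => u⁻¹ ^ 2)
      (measurable_inv.pow_const 2) cx2
      (by intro j; fin_cases j; norm_num) fun M t hM ht => ex2 hM ht
    simp only [inv_div, Fin.sum_univ_succ, Fin.sum_univ_zero, Matrix.cons_val_zero, e65,
      add_zero] at h1
    refine h1.trans (le_trans (le_of_eq ?_) g2)
    rw [mul_comm]
    norm_num
  · have h1 := main 5 (fun M => ![1 / M ^ 2, -4 / M, 6, -4 * M, M ^ 2])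
      ![2 / 5, 1 / 5, 0, -1 / 5, -2 / 5] (fun u => (u - 2 + u⁻¹) ^ 2)
      (((measurable_id.sub_const 2).add measurable_inv).pow_const 2) cx3
      (by intro j; fin_cases j <;> norm_num) fun M t hM ht => ex3 hM ht
    simp only [inv_div, Fin.sum_univ_five, Matrix.cons_val, e65] at h1
    refine h1.trans (le_trans (le_of_eq ?_) g3)
    have a1 : (1 + 2 / 5 : ℝ) = 7 / 5 := by norm_num
    have a3 : (1 + 0 : ℝ) = 1 := by norm_num
    have a4 : (1 + -1 / 5 : ℝ) = 4 / 5 := by norm_num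
    have a5 : (1 + -2 / 5 : ℝ) = 3 / 5 := by norm_num
    rw [a1, a3, a4, a5, Real.Gamma_one]
    field_simp
    ring
  · have h1 := main 5 (fun M => ![1 / M ^ 4, -4 / M ^ 3, 6 / M ^ 2, -4 / M, 1])
      ![4 / 5, 3 / 5, 2 / 5, 1 / 5, 0] (fun u => (u - 1) ^ 4)
      ((measurable_id.sub_const 1).pow_const 4) cx4
      (by intro j; fin_cases j <;> norm_num) fun M t hM ht => ex4 hM ht
    simp only [Fin.sum_univ_five, Matrix.cons_val, e65] at h1
    refine h1.trans (le_trans (le_of_eq ?_) g4)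
    have a1 : (1 + 4 / 5 : ℝ) = 9 / 5 := by norm_num
    have a2 : (1 + 3 / 5 : ℝ) = 8 / 5 := by norm_num
    have a3 : (1 + 2 / 5 : ℝ) = 7 / 5 := by norm_num
    have a4 : (1 + 0 : ℝ) = 1 := by norm_num
    rw [a1, a2, a3, a4, Real.Gamma_one]
    field_simp
    ring

end Pool.Agent.Helper58.DF
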